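import Pool.Agent.H820.PN.Stm

/-!
# From matrices to bilinear forms (helper729 for helper820)
-/

set_option autoImplicit false

namespace Pool.Agent.H729.PN

open Module Pool.Agent.H820.PN

section mat

variable {N : ℕ}

/-- the real matrix as a complex matrix -/
noncomputable def cm (M : Matrix (Fin N) (Fin N) ℝ) : Matrix (Fin N) (Fin N) ℂ := M.map (Complex.ofRealHom : ℝ →+* ℂ)

theorem cm_mul (M M' : Matrix (Fin N) (Fin N) ℝ) : cm (M * M') = cm M * cm M' := by
  unfold cm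
  exact Matrix.map_mul

theorem cm_tr (M : Matrix (Fin N) (Fin N) ℝ) : cm M.transpose = (cm M).transpose := rfl

theorem cm_apply (M : Matrix (Fin N) (Fin N) ℝ) (i j : Fin N) : cm M i j = (M i j : ℂ) := rfl

/-- the entries of the identity -/
theorem entries {J M M' : Matrix (Fin N) (Fin N) ℝ} {s : ℂ}
    (h : (cm J).transpose * (cm M + s • cm M') * cm J - (cm M + s • cm M') =
      Complex.I • ((cm J).transpose * (cm M + s • cm M') + (cm M + s • cm M') * cm J)) (i j : Fin N) :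
    (((J.transpose * M * J) i j - M i j : ℝ) : ℂ) + s * (((J.transpose * M' * J) i j - M' i j : ℝ) : ℂ) =
      Complex.I * ((((J.transpose * M) i j + (M * J) i j : ℝ) : ℂ) +
        s * (((J.transpose * M') i j + (M' * J) i j : ℝ) : ℂ)) := by
  have e1 : (cm J).transpose * (cm M + s • cm M') * cm J =
      cm (J.transpose * M * J) + s • cm (J.transpose * M' * J) := by
    rw [cm_mul, cm_mul, cm_mul, cm_mul, cm_tr, mul_add, add_mul, Matrix.mul_smul, Matrix.smul_mul]
  have e2 : (cm J).transpose * (cm M + s • cm M') = cm (J.transpose * M) + s • cm (J.transpose * M') := by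
    rw [cm_mul, cm_mul, cm_tr, mul_add, Matrix.mul_smul]
  have e3 : (cm M + s • cm M') * cm J = cm (M * J) + s • cm (M' * J) := by
    rw [cm_mul, cm_mul, add_mul, Matrix.smul_mul]
  rw [e1, e2, e3] at h
  have h1 := congrFun (congrFun h i) j
  simp only [Matrix.sub_apply, Matrix.add_apply, Matrix.smul_apply, cm_apply, smul_eq_mul] at h1
  push_cast
  linear_combination h1

end mat

section bil

variable {U : Type} [AddCommGroup U] [Module ℝ U] [FiniteDimensional ℝ U] {N : ℕ}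

/-- the complex-valued form -/
noncomputable def toC (f : U →ₗ[ℝ] U →ₗ[ℝ] ℝ) : U →ₗ[ℝ] U →ₗ[ℝ] ℂ := f.compr₂ Complex.ofRealCLM.toLinearMap

omit [FiniteDimensional ℝ U] in
theorem toC_apply (f : U →ₗ[ℝ] U →ₗ[ℝ] ℝ) (u v : U) : toC f u v = (f u v : ℂ) := rfl

omit [FiniteDimensional ℝ U] in
/-- identities between forms on a basis -/
theorem ext_forms (b : Basis (Fin N) ℝ U) (P P' Q Q' : U →ₗ[ℝ] U →ₗ[ℝ] ℝ) (s : ℂ)
    (h : ∀ i j, ((P (b i) (b j) : ℝ) : ℂ) + s * ((P' (b i) (b j) : ℝ) : ℂ) =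
      Complex.I * (((Q (b i) (b j) : ℝ) : ℂ) + s * ((Q' (b i) (b j) : ℝ) : ℂ))) (u v : U) :
    ((P u v : ℝ) : ℂ) + s * ((P' u v : ℝ) : ℂ) = Complex.I * (((Q u v : ℝ) : ℂ) + s * ((Q' u v : ℝ) : ℂ)) := by
  have h1 : toC P + s • toC P' = Complex.I • (toC Q + s • toC Q') := LinearMap.ext_basis b b fun i j => by
    have h2 := h i j
    simp only [LinearMap.add_apply, LinearMap.smul_apply, toC_apply, smul_eq_mul]
    exact h2
  have h2 := LinearMap.congr_fun (LinearMap.congr_fun h1 u) v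
  simp only [LinearMap.add_apply, LinearMap.smul_apply, toC_apply, smul_eq_mul] at h2
  exact h2

omit [FiniteDimensional ℝ U] in
theorem skew (b : Basis (Fin N) ℝ U) (F : U →ₗ[ℝ] U →ₗ[ℝ] ℝ) (h : ∀ u, F u u = 0) :
    (LinearMap.toMatrix₂ b b F).transpose = -(LinearMap.toMatrix₂ b b F) := by
  ext i j
  rw [Matrix.transpose_apply, Matrix.neg_apply, LinearMap.toMatrix₂_apply, LinearMap.toMatrix₂_apply]
  have h1 := h (b i + b j)
  simp only [map_add, LinearMap.add_apply, h, zero_add, add_zero] at h1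
  linarith

omit [FiniteDimensional ℝ U] in
/-- one form and its companion -/
theorem forms (b : Basis (Fin N) ℝ U) (F F' : U →ₗ[ℝ] U →ₗ[ℝ] ℝ) (Jm : Matrix (Fin N) (Fin N) ℝ) (s : ℂ)
    (h : (cm Jm).transpose * (cm (LinearMap.toMatrix₂ b b F) + s • cm (LinearMap.toMatrix₂ b b F')) * cm Jm -
        (cm (LinearMap.toMatrix₂ b b F) + s • cm (LinearMap.toMatrix₂ b b F')) =
      Complex.I • ((cm Jm).transpose * (cm (LinearMap.toMatrix₂ b b F) + s • cm (LinearMap.toMatrix₂ b b F')) +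
        (cm (LinearMap.toMatrix₂ b b F) + s • cm (LinearMap.toMatrix₂ b b F')) * cm Jm)) (u v : U) :
    ((F (Matrix.toLin b b Jm u) (Matrix.toLin b b Jm v) - F u v : ℝ) : ℂ) +
      s * ((F' (Matrix.toLin b b Jm u) (Matrix.toLin b b Jm v) - F' u v : ℝ) : ℂ) =
      Complex.I * (((F (Matrix.toLin b b Jm u) v + F u (Matrix.toLin b b Jm v) : ℝ) : ℂ) +
        s * ((F' (Matrix.toLin b b Jm u) v + F' u (Matrix.toLin b b Jm v) : ℝ) : ℂ)) := by
  obtain ⟨J, hJ⟩ : ∃ J, J = Matrix.toLin b b Jm := ⟨_, rfl⟩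
  have hJm : LinearMap.toMatrix b b J = Jm := by rw [hJ]; exact LinearMap.toMatrix_toLin b b Jm
  have hid : LinearMap.toMatrix b b (LinearMap.id : U →ₗ[ℝ] U) = 1 := LinearMap.toMatrix_id b
  have k1 : ∀ (f : U →ₗ[ℝ] U →ₗ[ℝ] ℝ) (i j : Fin N), f (J (b i)) (J (b j)) =
      (Jm.transpose * LinearMap.toMatrix₂ b b f * Jm) i j := by
    intro f i j
    have e := LinearMap.toMatrix₂_compl₁₂ b b b b f J J
    rw [hJm] at e
    have e1 := congrFun (congrFun e i) j
    rw [LinearMap.toMatrix₂_apply] at e1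
    exact e1
  have k2 : ∀ (f : U →ₗ[ℝ] U →ₗ[ℝ] ℝ) (i j : Fin N), f (J (b i)) (b j) =
      (Jm.transpose * LinearMap.toMatrix₂ b b f) i j := by
    intro f i j
    have e := LinearMap.toMatrix₂_compl₁₂ b b b b f J LinearMap.id
    rw [hJm, hid, mul_one] at e
    have e1 := congrFun (congrFun e i) j
    rw [LinearMap.toMatrix₂_apply] at e1
    exact e1
  have k3 : ∀ (f : U →ₗ[ℝ] U →ₗ[ℝ] ℝ) (i j : Fin N), f (b i) (J (b j)) =
      (LinearMap.toMatrix₂ b b f * Jm) i j := by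
    intro f i j
    have e := LinearMap.toMatrix₂_compl₁₂ b b b b f LinearMap.id J
    rw [hJm, hid, Matrix.transpose_one, one_mul] at e
    have e1 := congrFun (congrFun e i) j
    rw [LinearMap.toMatrix₂_apply] at e1
    exact e1
  have k4 : ∀ (f : U →ₗ[ℝ] U →ₗ[ℝ] ℝ) (i j : Fin N), f (b i) (b j) = (LinearMap.toMatrix₂ b b f) i j := by
    intro f i j
    rw [LinearMap.toMatrix₂_apply]
  rw [← hJ]
  have key := ext_forms b (F.compl₁₂ J J - F) (F'.compl₁₂ J J - F')
    (F.compl₁₂ J LinearMap.id + F.compl₁₂ LinearMap.id J) (F'.compl₁₂ J LinearMap.id + F'.compl₁₂ LinearMap.id J) s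
    (fun i j => by
      have h1 := entries h i j
      simp only [LinearMap.sub_apply, LinearMap.add_apply, LinearMap.compl₁₂_apply, LinearMap.id_apply]
      rw [k1, k1, k2, k2, k3, k3, k4 F, k4 F']
      exact h1) u v
  simp only [LinearMap.sub_apply, LinearMap.add_apply, LinearMap.compl₁₂_apply, LinearMap.id_apply] at key
  exact key

end bil

/-- **From matrices to bilinear forms.** -/
theorem t_pair : S_cplx → S_real → S_pair := by
  intro hcplx hreal U _ _ _ F G F' G' hF hG hF' hG' hnd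
  obtain ⟨b⟩ : Nonempty (Basis (Fin (finrank ℝ U)) ℝ U) := ⟨finBasis ℝ U⟩
  have hu : IsUnit (LinearMap.toMatrix₂ b b G) := by
    have h1 : (LinearMap.toMatrix₂ b b G).det ≠ 0 := (LinearMap.separatingLeft_iff_det_ne_zero b).1 hnd
    exact (Matrix.isUnit_iff_isUnit_det _).2 (isUnit_iff_ne_zero.2 h1)
  obtain ⟨s, A, hs, hA, hAF, hAG, hu1, hu2⟩ := hcplx (finrank ℝ U) (LinearMap.toMatrix₂ b b F)
    (LinearMap.toMatrix₂ b b G) (LinearMap.toMatrix₂ b b F') (LinearMap.toMatrix₂ b b G')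
    (skew b F hF) (skew b G hG) (skew b F' hF') (skew b G' hG') hu
  obtain ⟨Jm, hJ, hp⟩ := hreal (finrank ℝ U) A hA hu1 hu2
  refine ⟨s, Matrix.toLin b b Jm, hs, ?_, ?_, ?_⟩
  · intro u
    have h1 : Matrix.toLin b b (Jm * Jm) u = Matrix.toLin b b Jm (Matrix.toLin b b Jm u) :=
      Matrix.toLin_mul_apply b b b Jm Jm u
    rw [← h1, hJ, map_neg, Matrix.toLin_one]
    rfl
  · exact forms b F F' Jm s (hp _ hAF)
  · exact forms b G G' Jm s (hp _ hAG)

end Pool.Agent.H729.PN
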